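import Mathlib
import Pool.Agent.Helper126.Sus.Forc
import Pool.Agent.W876.Two.Gen
import Pool.Agent.W876.Spl.Defs
import Pool.Agent.W876.Spl.Norm
import Pool.Agent.W876.Spl.Main

/-!
# An uncountably chromatic graph which does not split to two parts

If `κ` is a measurable cardinal, then some forcing notion with the countable chain condition
forces that there is a graph on `κ` whose chromatic number is uncountable and which does not split
to two parts, and so does not split to any number of parts above one.
-/

namespace Pool.Agent.Results.MP_d41870_lc.NonsplittingForced

open Cardinal Pool.Agent.Helper126.Sus.Forc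

open Pool.Agent.W876.Two.Gen (CardinalsPreserved)

open Pool.Agent.W876.Spl

theorem result : ∀ κ : Cardinal.{0}, IsMeasurable κ →
    ∃ (P : Type) (_ : Preorder P), Nonempty P ∧ CCC P ∧ ∀ p : P,
      p ∈ CardinalsPreserved P ∧
      p ∈ fex fun E : Sym2 κ.ord.ToType → Set P =>
        fand (IsGraph E) (fand (UncountablyChromatic E)
          (fall fun D : Type => fall fun _ : Nontrivial D => fnot (SplitsTo E D))) :=
  fun κ hκ => exists_forcing κ hκ

end Pool.Agent.Results.MP_d41870_lc.NonsplittingForced
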